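import Pool.Agent.Work.MP_2738db_nt_A.Interface

set_option autoImplicit false

namespace Pool.Agent.Work.MP_2738db_nt_A.helper87

open Finset NumberField Pool.Agent.Work.MP_2738db_nt_A

theorem dec_alg (R : Type) [CommRing R] (l a b c n k : ℕ) (e : ℤ) (θ : R) (hl : l.Prime)
    (hbc : Nat.Coprime b c) (hk : 1 ≤ k) (he : e = 1 ∨ e = -1)
    (h : (a : ℤ) ^ l = (b : ℤ) ^ n + e * (c : ℤ) ^ k) (hθ : θ ^ l = (b : R) ^ n) :
    ∃ (β : R) (lam : ℕ), ((a : R) - θ) * β = (e : R) * (c : R) ^ k ∧ (lam = 1 ∨ lam = l) ∧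
      Nat.Coprime lam b ∧ (lam : R) ∈ Ideal.span {(a : R) - θ, β} := by
  set β : R := ∑ i ∈ range l, θ ^ i * (a : R) ^ (l - 1 - i) with hβ
  have hprod : ((a : R) - θ) * β = (e : R) * (c : R) ^ k := by
    have h1 := geom_sum₂_mul θ (a : R) l
    have h2 : ((a : R)) ^ l = (b : R) ^ n + (e : R) * (c : R) ^ k := by
      have := congrArg (fun z : ℤ => (z : R)) h
      push_cast at this
      exact this
    rw [hθ, h2] at h1
    linear_combination (-1 : R) * h1
  have hac : Nat.Coprime a c := by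
    rw [Nat.coprime_iff_gcd_eq_one]
    by_contra hne
    obtain ⟨q, hq, hqd⟩ := Nat.exists_prime_and_dvd hne
    have hqa : q ∣ a := hqd.trans (Nat.gcd_dvd_left _ _)
    have hqc : q ∣ c := hqd.trans (Nat.gcd_dvd_right _ _)
    have h3 : (q : ℤ) ∣ (b : ℤ) ^ n := by
      have h4 : (q : ℤ) ∣ (a : ℤ) ^ l := dvd_pow (Int.natCast_dvd_natCast.2 hqa) hl.ne_zero
      have h5 : (q : ℤ) ∣ e * (c : ℤ) ^ k :=
        Dvd.dvd.mul_left (dvd_pow (Int.natCast_dvd_natCast.2 hqc) (by omega)) _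
      have h6 : (b : ℤ) ^ n = (a : ℤ) ^ l - e * (c : ℤ) ^ k := by linarith
      rw [h6]; exact dvd_sub h4 h5
    have h7 : q ∣ b := by
      have : (q : ℤ) ∣ ((b ^ n : ℕ) : ℤ) := by push_cast; exact h3
      exact hq.dvd_of_dvd_pow (Int.natCast_dvd_natCast.1 this)
    have := Nat.dvd_gcd h7 hqc
    rw [hbc] at this
    exact hq.one_lt.ne' (Nat.dvd_one.1 this)
  -- `l a^(l-1)` in the ideal
  have hα : (a : R) - θ ∈ Ideal.span {(a : R) - θ, β} := Ideal.subset_span (by simp)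
  have hβm : β ∈ Ideal.span {(a : R) - θ, β} := Ideal.subset_span (by simp)
  have hla : (l : R) * (a : R) ^ (l - 1) ∈ Ideal.span {(a : R) - θ, β} := by
    have hd : (a : R) - θ ∣ (l : R) * (a : R) ^ (l - 1) - β := by
      have : (l : R) * (a : R) ^ (l - 1) - β =
          ∑ i ∈ range l, ((a : R) ^ (l - 1) - θ ^ i * (a : R) ^ (l - 1 - i)) := by
        rw [Finset.sum_sub_distrib, hβ]; simp
      rw [this]
      apply Finset.dvd_sum
      intro i hi
      have hi' : i ≤ l - 1 := by have := Finset.mem_range.1 hi; omega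
      have : (a : R) ^ (l - 1) - θ ^ i * (a : R) ^ (l - 1 - i) =
          ((a : R) ^ i - θ ^ i) * (a : R) ^ (l - 1 - i) := by
        rw [sub_mul, ← pow_add, Nat.add_sub_cancel' hi']
      rw [this]
      exact Dvd.dvd.mul_right (sub_dvd_pow_sub_pow _ _ _) _
    obtain ⟨q, hq⟩ := hd
    have : (l : R) * (a : R) ^ (l - 1) = q * ((a : R) - θ) + β := by linear_combination hq
    rw [this]
    exact Ideal.add_mem _ (Ideal.mul_mem_left _ _ hα) hβm
  have hck : (c : R) ^ k ∈ Ideal.span {(a : R) - θ, β} := by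
    have : (c : R) ^ k = ((e : R) * β) * ((a : R) - θ) := by
      have h8 : (e : R) * (e : R) = 1 := by rcases he with rfl | rfl <;> simp
      linear_combination (-(e : R)) * hprod + (-(c : R) ^ k) * h8
    rw [this]; exact Ideal.mul_mem_left _ _ hα
  by_cases hlc : l ∣ c
  · refine ⟨β, l, hprod, Or.inr rfl, ?_, ?_⟩
    · exact (Nat.Coprime.coprime_dvd_right hlc hbc).symm
    · have h9 : IsCoprime (((a ^ (l - 1) : ℕ)) : ℤ) ((c ^ k : ℕ) : ℤ) :=
        Nat.Coprime.isCoprime (Nat.Coprime.pow _ _ hac)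
      obtain ⟨x, y, hxy⟩ := h9
      have hR : (x : R) * (a : R) ^ (l - 1) + (y : R) * (c : R) ^ k = 1 := by
        have := congrArg (fun z : ℤ => (z : R)) hxy
        push_cast at this
        exact this
      have : (l : R) = (x : R) * ((l : R) * (a : R) ^ (l - 1)) + ((l : R) * (y : R)) * (c : R) ^ k := by
        linear_combination (-(l : R)) * hR
      rw [this]
      exact Ideal.add_mem _ (Ideal.mul_mem_left _ _ hla) (Ideal.mul_mem_left _ _ hck)
  · refine ⟨β, 1, hprod, Or.inl rfl, by simp, ?_⟩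
    have h9 : IsCoprime (((l * a ^ (l - 1) : ℕ)) : ℤ) ((c ^ k : ℕ) : ℤ) := by
      apply Nat.Coprime.isCoprime
      exact Nat.Coprime.pow_right _ (Nat.Coprime.mul_left ((Nat.Prime.coprime_iff_not_dvd hl).2 hlc)
        (Nat.Coprime.pow_left _ hac))
    obtain ⟨x, y, hxy⟩ := h9
    have hR : (x : R) * ((l : R) * (a : R) ^ (l - 1)) + (y : R) * (c : R) ^ k = 1 := by
      have := congrArg (fun z : ℤ => (z : R)) hxy
      push_cast at this
      exact this
    rw [Nat.cast_one, ← hR]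
    exact Ideal.add_mem _ (Ideal.mul_mem_left _ _ hla) (Ideal.mul_mem_left _ _ hck)

/-- the product formula, logarithmic form -/
theorem sum_log (K : Type) [Field K] [NumberField K] (x : 𝓞 K) (hx : x ≠ 0) :
    ∑ v : InfinitePlace K, (v.mult : ℝ) * Real.log (v (x : K)) =
      Real.log (Ideal.absNorm (Ideal.span {x})) := by
  have h3 : (Ideal.absNorm (Ideal.span {x}) : ℝ) = ∏ v : InfinitePlace K, v (x : K) ^ v.mult := by
    rw [InfinitePlace.prod_eq_abs_norm, Ideal.absNorm_span_singleton]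
    have : (Algebra.norm ℚ (x : K)) = ((Algebra.norm ℤ x : ℤ) : ℚ) := by
      exact (Algebra.coe_norm_int x).symm
    rw [this]
    rw [Nat.cast_natAbs]
    push_cast
    rfl
  rw [h3, Real.log_prod]
  · apply Finset.sum_congr rfl
    intro v _
    rw [Real.log_pow]
  · intro v _
    apply pow_ne_zero
    simpa using hx

theorem place_natCast (K : Type) [Field K] [NumberField K] (v : InfinitePlace K) (m : ℕ) :
    v ((m : 𝓞 K) : K) = m := by
  rw [← InfinitePlace.norm_embedding_eq]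
  simp

theorem logN_natCast (K : Type) [Field K] [NumberField K] (m : ℕ) :
    Real.log (Ideal.absNorm (Ideal.span {(m : 𝓞 K)})) = Module.finrank ℚ K * Real.log m := by
  rw [Ideal.absNorm_span_natCast]
  push_cast
  rw [Real.log_pow, RingOfIntegers.rank]

theorem place_pos (K : Type) [Field K] [NumberField K] (v : InfinitePlace K) (x : 𝓞 K)
    (hx : x ≠ 0) : 0 < v (x : K) :=
  InfinitePlace.pos_iff.2 (by simpa using hx)

theorem hb_of_log (K : Type) [Field K] [NumberField K] (x : 𝓞 K) (hx : x ≠ 0) (h : ℝ)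
    (H : ∀ v : InfinitePlace K, Real.log (v (x : K)) ≤ h) : HB K x h := by
  intro v
  exact (Real.log_le_iff_le_exp (place_pos K v x hx)).1 (H v)

theorem logv_pow (K : Type) [Field K] [NumberField K] (v : InfinitePlace K) (x : 𝓞 K) (m : ℕ) :
    Real.log (v ((x ^ m : 𝓞 K) : K)) = m * Real.log (v (x : K)) := by
  rw [← Real.log_pow]
  congr 1
  simp

theorem logv_mul (K : Type) [Field K] [NumberField K] (v : InfinitePlace K) (x y : 𝓞 K)
    (hx : x ≠ 0) (hy : y ≠ 0) :
    Real.log (v ((x * y : 𝓞 K) : K)) = Real.log (v (x : K)) + Real.log (v (y : K)) := by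
  rw [← Real.log_mul (place_pos K v x hx).ne' (place_pos K v y hy).ne']
  congr 1
  simp

theorem logN_le (K : Type) [Field K] [NumberField K] (I : Ideal (𝓞 K)) (m : ℕ) (hm : 1 ≤ m)
    (h : I ∣ Ideal.span {(m : 𝓞 K)}) :
    0 ≤ Real.log (Ideal.absNorm I) ∧
      Real.log (Ideal.absNorm I) ≤ Module.finrank ℚ K * Real.log m ∧ I ≠ ⊥ := by
  have hm0 : (m : 𝓞 K) ≠ 0 := by
    have : m ≠ 0 := by omega
    exact_mod_cast this
  have h0 : Ideal.span {(m : 𝓞 K)} ≠ ⊥ := by
    simpa using hm0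
  have hI : I ≠ ⊥ := by
    rintro rfl
    apply h0
    exact zero_dvd_iff.1 h
  have hI1 : 1 ≤ Ideal.absNorm I := by
    rw [Nat.one_le_iff_ne_zero, Ne, Ideal.absNorm_eq_zero_iff]; exact hI
  refine ⟨Real.log_nonneg (by exact_mod_cast hI1), ?_, hI⟩
  rw [← logN_natCast]
  apply Real.log_le_log (by exact_mod_cast hI1)
  have h1 : Ideal.absNorm I ∣ Ideal.absNorm (Ideal.span {(m : 𝓞 K)}) :=
    Ideal.absNorm_dvd_absNorm_of_le (Ideal.le_of_dvd h)
  have h2 : Ideal.absNorm (Ideal.span {(m : 𝓞 K)}) ≠ 0 := by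
    rw [Ne, Ideal.absNorm_eq_zero_iff]; exact h0
  exact_mod_cast Nat.le_of_dvd (Nat.pos_of_ne_zero h2) h1

/-- size of `a - θ` -/
theorem size_alpha (K : Type) [Field K] [NumberField K] (l a b c n k : ℕ) (e : ℤ) (θ : 𝓞 K)
    (hl : 1 ≤ l) (hb : 2 ≤ b) (he : e = 1 ∨ e = -1)
    (h : (a : ℤ) ^ l = (b : ℤ) ^ n + e * (c : ℤ) ^ k) (hcb : c ^ k ≤ b ^ n)
    (hθ : θ ^ l = (b : 𝓞 K) ^ n) (hα : (a : 𝓞 K) - θ ≠ 0) (v : InfinitePlace K) :
    Real.log (v (((a : 𝓞 K) - θ : 𝓞 K) : K)) ≤ 2 + n * Real.log b / l := by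
  have hlr : (1 : ℝ) ≤ l := by exact_mod_cast hl
  have hl0 : (0 : ℝ) < l := by linarith
  set B := Real.exp (n * Real.log b / l) with hB
  have hB0 : 0 < B := Real.exp_pos _
  have hb0 : (0 : ℝ) < b := by have : (2 : ℝ) ≤ b := by exact_mod_cast hb
                               linarith
  have hBl : B ^ l = (b : ℝ) ^ n := by
    rw [hB, ← Real.exp_nat_mul, mul_div_cancel₀ _ hl0.ne', ← Real.log_pow, Real.exp_log (by positivity)]
  have hvθ : v (θ : K) = B := by
    have h1 : v (θ : K) ^ l = B ^ l := by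
      rw [hBl]
      have : v (θ : K) ^ l = v ((θ ^ l : 𝓞 K) : K) := by simp
      rw [this, hθ]
      have : v (((b : 𝓞 K) ^ n : 𝓞 K) : K) = v ((b : 𝓞 K) : K) ^ n := by simp
      rw [this, place_natCast]
    exact (pow_left_inj₀ (by positivity) hB0.le (by omega)).1 h1
  have hva : (a : ℝ) ≤ 2 * B := by
    have h2 : (a : ℤ) ^ l ≤ 2 * (b : ℤ) ^ n := by
      have h3 : (c : ℤ) ^ k ≤ (b : ℤ) ^ n := by exact_mod_cast hcb
      have h4 : (0 : ℤ) ≤ (c : ℤ) ^ k := by positivity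
      rcases he with rfl | rfl <;> linarith
    have h5 : (a : ℝ) ^ l ≤ 2 * (b : ℝ) ^ n := by exact_mod_cast h2
    have h6 : (a : ℝ) ^ l ≤ (2 * B) ^ l := by
      rw [mul_pow, hBl]
      have : (2 : ℝ) ≤ 2 ^ l := by
        calc (2 : ℝ) = 2 ^ 1 := by norm_num
          _ ≤ 2 ^ l := pow_le_pow_right₀ (by norm_num) hl
      have h7 : (0 : ℝ) < (b : ℝ) ^ n := by positivity
      nlinarith
    exact le_of_pow_le_pow_left₀ (by omega) (by positivity) h6
  have htri : v (((a : 𝓞 K) - θ : 𝓞 K) : K) ≤ 3 * B := by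
    have h8 : v (((a : 𝓞 K) - θ : 𝓞 K) : K) ≤ v ((a : 𝓞 K) : K) + v (θ : K) := by
      rw [← InfinitePlace.norm_embedding_eq, ← InfinitePlace.norm_embedding_eq,
        ← InfinitePlace.norm_embedding_eq]
      have : (((a : 𝓞 K) - θ : 𝓞 K) : K) = ((a : 𝓞 K) : K) - (θ : K) := by simp
      rw [this, map_sub]
      exact norm_sub_le _ _
    rw [place_natCast, hvθ] at h8
    linarith
  have hpos := place_pos K v _ hα
  have h9 := Real.log_le_log hpos htri
  rw [Real.log_mul (by norm_num) hB0.ne', hB, Real.log_exp] at h9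
  have h10 : Real.log 3 ≤ 2 := by
    have := Real.log_le_sub_one_of_pos (show (0 : ℝ) < 3 by norm_num)
    linarith
  linarith

theorem stmt_DEC (hIdl : Stmt_Idl) (hPig : Stmt_Pig) : Stmt_Dec := by
  obtain ⟨C₁, hC₁, hpig⟩ := hPig
  refine ⟨C₁ + 24, by linarith, ?_⟩
  intro K _ _ l a b c n k e θ U δ hl hb hc hbc ha hn hk he h hcb hθ hD hdisc hU2 hlU hbU hcU hδ0 hδ1
  have hl1 : 1 ≤ l := hl.one_lt.le
  obtain ⟨β, lam0, hprod, hlam, hlamb, hmem⟩ := dec_alg (𝓞 K) l a b c n k e θ hl hbc hk he h hθ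
  have hlam1 : 1 ≤ lam0 := by rcases hlam with rfl | rfl <;> omega
  have hlaml : lam0 ≤ l := by rcases hlam with rfl | rfl <;> omega
  have hc0 : (c : 𝓞 K) ≠ 0 := by
    have : c ≠ 0 := by omega
    exact_mod_cast this
  have hlam0 : (lam0 : 𝓞 K) ≠ 0 := by
    have : lam0 ≠ 0 := by omega
    exact_mod_cast this
  have he0 : (e : 𝓞 K) ≠ 0 := by rcases he with rfl | rfl <;> simp
  have hαβ0 : ((a : 𝓞 K) - θ) * β ≠ 0 := by
    rw [hprod]; exact mul_ne_zero he0 (pow_ne_zero _ hc0)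
  have hα0 : (a : 𝓞 K) - θ ≠ 0 := left_ne_zero_of_mul hαβ0
  set α : 𝓞 K := (a : 𝓞 K) - θ with hα
  have hspan : Ideal.span {α * β} = Ideal.span {(c : 𝓞 K) ^ k} := by
    rw [hprod]
    rcases he with rfl | rfl
    · simp
    · rw [Int.cast_neg, Int.cast_one, neg_one_mul, Ideal.span_singleton_neg]
  obtain ⟨𝔠, 𝔣, hcf, h𝔠, h𝔣⟩ := hIdl (𝓞 K) α β (c : 𝓞 K) (lam0 : 𝓞 K) k hk hc0 hlam0 hspan hmem
  obtain ⟨hLc0, hLc, h𝔠0⟩ := logN_le K 𝔠 c (by omega) h𝔠
  have h𝔣' : 𝔣 ∣ Ideal.span {((lam0 ^ 2 : ℕ) : 𝓞 K)} := by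
    push_cast; exact h𝔣
  obtain ⟨hLf0, hLf, h𝔣0⟩ := logN_le K 𝔣 (lam0 ^ 2) (Nat.one_le_iff_ne_zero.2 (by positivity)) h𝔣'
  have hDpos : 0 < Module.finrank ℚ K := Module.finrank_pos
  have hD1 : (1 : ℝ) ≤ Module.finrank ℚ K := by exact_mod_cast hDpos
  have hDl : (Module.finrank ℚ K : ℝ) ≤ l := by exact_mod_cast hD
  set D : ℝ := (Module.finrank ℚ K : ℝ) with hDdef
  set Lc : ℝ := Real.log (Ideal.absNorm 𝔠) with hLcdef
  set Lf : ℝ := Real.log (Ideal.absNorm 𝔣) with hLfdef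
  have hla0 : (lam0 : 𝓞 K) * α ≠ 0 := mul_ne_zero hlam0 hα0
  set y : InfinitePlace K → ℝ := fun v => Real.log (v (((lam0 : 𝓞 K) * α : 𝓞 K) : K)) - Lf / D
    with hy
  have hsum : ∑ v, (v.mult : ℝ) * y v = k * Lc := by
    have h1 : ∑ v : InfinitePlace K, (v.mult : ℝ) * y v =
        ∑ v : InfinitePlace K, (v.mult : ℝ) * Real.log (v (((lam0 : 𝓞 K) * α : 𝓞 K) : K)) -
          ∑ v : InfinitePlace K, (v.mult : ℝ) * (Lf / D) := by
      rw [← Finset.sum_sub_distrib]
      apply Finset.sum_congr rfl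
      intro v _
      rw [hy]; ring
    have h2 : ∑ v : InfinitePlace K, (v.mult : ℝ) * (Lf / D) = Lf := by
      rw [← Finset.sum_mul]
      have : ∑ v : InfinitePlace K, (v.mult : ℝ) = D := by
        rw [hDdef, ← InfinitePlace.sum_mult_eq]; push_cast; rfl
      rw [this]; field_simp
    rw [h1, h2, sum_log K _ hla0, hcf, map_mul, map_pow]
    push_cast
    have hn1 : (Ideal.absNorm 𝔠 : ℝ) ≠ 0 := by
      have : Ideal.absNorm 𝔠 ≠ 0 := by rw [Ne, Ideal.absNorm_eq_zero_iff]; exact h𝔠0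
      exact_mod_cast this
    have hn2 : (Ideal.absNorm 𝔣 : ℝ) ≠ 0 := by
      have : Ideal.absNorm 𝔣 ≠ 0 := by rw [Ne, Ideal.absNorm_eq_zero_iff]; exact h𝔣0
      exact_mod_cast this
    rw [Real.log_mul (pow_ne_zero _ hn1) hn2, Real.log_pow]
    ring
  have hU1 : (1 : ℝ) ≤ U := by linarith
  have hU0 : (0 : ℝ) < U := by linarith
  have hlr1 : (1 : ℝ) ≤ l := by exact_mod_cast hl1
  have hl0 : (0 : ℝ) < l := by linarith
  have hlogb0 : 0 ≤ Real.log b := Real.log_nonneg (by exact_mod_cast (by omega : 1 ≤ b))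
  have hlogc0 : 0 ≤ Real.log c := Real.log_nonneg (by exact_mod_cast (by omega : 1 ≤ c))
  have hlogl0 : 0 ≤ Real.log l := Real.log_nonneg hlr1
  have hloglU : Real.log l ≤ U := by
    have := Real.log_le_sub_one_of_pos hl0
    linarith
  have hloglam0 : 0 ≤ Real.log lam0 := Real.log_nonneg (by exact_mod_cast hlam1)
  have hloglam : Real.log lam0 ≤ Real.log l :=
    Real.log_le_log (by exact_mod_cast hlam1) (by exact_mod_cast hlaml)
  have hU24 : U ^ 2 ≤ U ^ 4 := pow_le_pow_right₀ hU1 (by norm_num)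
  have hU14 : U ≤ U ^ 4 := by
    calc U = U ^ 1 := by ring
      _ ≤ U ^ 4 := pow_le_pow_right₀ hU1 (by norm_num)
  have hLfD : Lf / D ≤ 2 * Real.log l := by
    rw [div_le_iff₀ (by linarith)]
    push_cast at hLf
    rw [Real.log_pow] at hLf
    push_cast at hLf
    have : D * (2 * Real.log lam0) ≤ D * (2 * Real.log l) :=
      mul_le_mul_of_nonneg_left (by linarith) (by linarith)
    linarith
  have hLfD0 : 0 ≤ Lf / D := div_nonneg hLf0 (by linarith)
  obtain ⟨u, s, η, hu1, hu, hη0, hηspan, hs, hηv⟩ := hpig K 𝔠 k n y δ (U ^ 4) h𝔠0 hn hδ0 hδ1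
    (by linarith) (by nlinarith) (by
      calc Real.log |(discr K : ℝ)| ≤ l ^ 2 * (1 + Real.log b) := hdisc
        _ ≤ U ^ 2 * (U + U) := by
            apply mul_le_mul _ (by linarith) (by linarith) (by positivity)
            exact pow_le_pow_left₀ hl0.le hlU 2
        _ = U ^ 3 * 2 := by ring
        _ ≤ U ^ 3 * U := by gcongr
        _ = U ^ 4 := by ring) (by
      calc Lc ≤ D * Real.log c := hLc
        _ ≤ U * U := mul_le_mul (by linarith) hcU hlogc0 hU0.le
        _ = U ^ 2 := by ring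
        _ ≤ U ^ 4 := hU24) hsum
  have hur1 : (1 : ℝ) ≤ u := by exact_mod_cast hu1
  have hnr1 : (1 : ℝ) ≤ n := by exact_mod_cast hn
  have hn0 : (0 : ℝ) < n := by linarith
  set r : ℕ := n / u with hr
  have hru : r * u ≤ n := Nat.div_mul_le_self n u
  have hru' : n < (r + 1) * u := by
    rw [hr, add_mul, one_mul]
    have h3 := Nat.div_add_mod n u
    have h4 := Nat.mod_lt n (by omega : u > 0)
    rw [mul_comm (n / u) u]
    omega
  have hruR : (r : ℝ) * u ≤ n := by exact_mod_cast hru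
  have hruR' : (n : ℝ) < (r + 1) * u := by exact_mod_cast hru'
  have hr0 : (0 : ℝ) ≤ r := by positivity
  have hrδ0 : 0 ≤ (r : ℝ) * δ := by positivity
  set E : ℕ := ⌈(r : ℝ) * δ⌉₊ with hE
  have hE1 : (r : ℝ) * δ ≤ E := Nat.le_ceil _
  have hE2 : (E : ℝ) ≤ r * δ + 1 := (Nat.ceil_lt_add_one hrδ0).le
  obtain ⟨hs1, hs2⟩ := abs_le.1 hs
  have hk0 : (0 : ℝ) ≤ k := by positivity
  -- `t = r u / n`
  set t : ℝ := r * u / n with ht
  have ht1 : t ≤ 1 := by rw [ht, div_le_one hn0]; exact hruR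
  have ht0 : 0 ≤ t := by positivity
  have ht2 : 1 - t ≤ u / n := by
    have h1 : (1 : ℝ) < ((r : ℝ) + 1) * u / n := by rw [lt_div_iff₀ hn0]; linarith
    have h2 : ((r : ℝ) + 1) * u / n = t + u / n := by rw [ht]; ring
    linarith
  have hsr : s * r ≤ k + E := by
    have h1 : (s : ℝ) * r ≤ k + E := by
      have h2 : (s : ℝ) * r ≤ (u * k / n + δ) * r := by gcongr; linarith
      have h3 : (u * k / n + δ) * (r : ℝ) = k * t + r * δ := by rw [ht]; ring
      have h4 : (k : ℝ) * t ≤ k := by nlinarith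
      linarith
    exact_mod_cast h1
  have hEl : E ≤ E * l := Nat.le_mul_of_pos_right _ (by omega)
  -- divisibility
  have hdiv : η ^ r ∣ (lam0 : 𝓞 K) * α * (c : 𝓞 K) ^ E := by
    rw [← Ideal.span_singleton_le_span_singleton, ← Ideal.dvd_iff_le,
      ← Ideal.span_singleton_mul_span_singleton, hcf, ← Ideal.span_singleton_pow,
      ← Ideal.span_singleton_pow, hηspan, ← pow_mul]
    have h1 : 𝔠 ^ (s * r) ∣ 𝔠 ^ (k + E) := pow_dvd_pow _ hsr
    have h2 : 𝔠 ^ (k + E) ∣ 𝔠 ^ k * 𝔣 * Ideal.span {(c : 𝓞 K)} ^ E := by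
      rw [pow_add]
      exact mul_dvd_mul (Dvd.intro _ rfl) (pow_dvd_pow_of_dvd h𝔠 E)
    exact h1.trans h2
  obtain ⟨κ, hκ⟩ := hdiv
  have hlac : (lam0 : 𝓞 K) * α * (c : 𝓞 K) ^ E ≠ 0 := mul_ne_zero hla0 (pow_ne_zero _ hc0)
  have hκ0 : κ ≠ 0 := by
    rintro rfl
    rw [mul_zero] at hκ
    exact hlac hκ
  -- the size function
  have hUp : ∀ x : ℝ, x ≤ U ^ 5 → x ≤ U ^ (C₁ + 24) := by
    intro x hx
    refine hx.trans ?_
    rw [← Real.rpow_natCast]
    exact Real.rpow_le_rpow_of_exponent_le hU1 (by push_cast; linarith)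
  have hYv : ∀ v, y v ≤ Real.log l + 2 + n * Real.log b / l := by
    intro v
    have h1 : Real.log (v (((lam0 : 𝓞 K) * α : 𝓞 K) : K)) =
        Real.log lam0 + Real.log (v ((α : 𝓞 K) : K)) := by
      rw [logv_mul K v _ _ hlam0 hα0, place_natCast]
    have h2 := size_alpha K l a b c n k e θ hl1 hb he h hcb hθ hα0 v
    have h3 : y v = Real.log (v (((lam0 : 𝓞 K) * α : 𝓞 K) : K)) - Lf / D := rfl
    rw [h3, h1]
    linarith
  set Y : ℝ := Real.log l + 2 + n * Real.log b / l with hY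
  have hY0 : 0 ≤ Y := by positivity
  have hun0 : (0 : ℝ) ≤ u / n := by positivity
  -- `l (u/n) Y`
  have hlY : l * (u / n * Y) ≤ u * (3 * U ^ 2) := by
    have h1 : (l : ℝ) * (u / n * Y) = (u / n) * (l * (Real.log l + 2)) + u * Real.log b := by
      rw [hY]; field_simp
    have h2 : (l : ℝ) * (Real.log l + 2) ≤ 2 * U ^ 2 := by nlinarith
    have h3 : (u : ℝ) / n ≤ u := div_le_self (by positivity) hnr1
    have h4 : (u : ℝ) / n * (l * (Real.log l + 2)) ≤ u * (2 * U ^ 2) := by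
      apply mul_le_mul h3 h2 (by positivity) (by positivity)
    have h5 : (u : ℝ) * Real.log b ≤ u * U ^ 2 := by
      apply mul_le_mul_of_nonneg_left _ (by positivity)
      nlinarith
    rw [h1]; linarith
  have hklog : (k : ℝ) * Real.log c ≤ n * Real.log b := by
    rw [← Real.log_pow, ← Real.log_pow]
    apply Real.log_le_log
    · have : 0 < c := by omega
      positivity
    · exact_mod_cast hcb
  have hklogn : (u : ℝ) / n * (k * Real.log c) ≤ u * U := by
    calc (u : ℝ) / n * (k * Real.log c) ≤ u / n * (n * Real.log b) := by gcongr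
      _ = u * Real.log b := by field_simp
      _ ≤ u * U := by gcongr
  have hUC : U ^ 5 ≤ U ^ (C₁ + 24) := hUp _ le_rfl
  have hU2U : U * 2 ≤ U ^ 2 := by nlinarith
  have hU25 : 8 * U ^ 2 ≤ U ^ 5 := by
    have h1 : (8 : ℝ) ≤ U ^ 3 := by
      calc (8 : ℝ) = 2 ^ 3 := by norm_num
        _ ≤ U ^ 3 := pow_le_pow_left₀ (by norm_num) hU2 3
    calc 8 * U ^ 2 ≤ U ^ 3 * U ^ 2 := by gcongr
      _ = U ^ 5 := by ring
  have hU2C : 8 * U ^ 2 ≤ U ^ (C₁ + 24) := hU25.trans hUC
  have hll : (l : ℝ) * Real.log l ≤ U ^ 2 := by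
    calc (l : ℝ) * Real.log l ≤ U * U := mul_le_mul hlU hloglU hlogl0 hU0.le
      _ = U ^ 2 := by ring
  have hlc : (l : ℝ) * Real.log c ≤ U ^ 2 := by
    calc (l : ℝ) * Real.log c ≤ U * U := mul_le_mul hlU hcU hlogc0 hU0.le
      _ = U ^ 2 := by ring
  have hUU2 : U ≤ U ^ 2 := by nlinarith
  have hlEc : (l : ℝ) * (E * Real.log c) ≤ (r * δ + 1) * U ^ 2 := by
    calc (l : ℝ) * (E * Real.log c) = E * (l * Real.log c) := by ring
      _ ≤ (r * δ + 1) * U ^ 2 := mul_le_mul hE2 hlc (by positivity) (by positivity)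
  have hsum8 : (8 * U ^ 2) * (u + r * δ) ≤ (u + r * δ) * U ^ (C₁ + 24) := by
    rw [mul_comm]
    exact mul_le_mul_of_nonneg_left hU2C (by positivity)
  have hU2u : U ^ 2 ≤ u * U ^ 2 := le_mul_of_one_le_left (by positivity) hur1
  refine ⟨u, s, r, E, k + E * l - s * r, κ, η, (lam0 : 𝓞 K), hu1, ?_, rfl, ?_, ?_, hκ0, hη0,
    ?_, by omega, ?_, ?_, ?_, ?_⟩
  · -- size of u
    refine hu.trans ?_
    apply mul_le_mul
    · apply Real.exp_le_exp.2
      have h1 : C₁ ≤ U ^ C₁ := by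
        have h2 := one_add_mul_self_le_rpow_one_add (show (-1 : ℝ) ≤ 1 by norm_num) hC₁
        have h3 : ((1 : ℝ) + 1) ^ C₁ ≤ U ^ C₁ :=
          Real.rpow_le_rpow (by norm_num) (by linarith) (by linarith)
        linarith
      calc C₁ * (U ^ 4) ^ 6 = C₁ * U ^ (24 : ℝ) := by
            rw [← pow_mul, ← Real.rpow_natCast]; norm_num
        _ ≤ U ^ C₁ * U ^ (24 : ℝ) := by gcongr
        _ = U ^ (C₁ + 24) := by rw [Real.rpow_add hU0]
    · apply Real.rpow_le_rpow_of_exponent_le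
      · rw [le_div_iff₀ hδ0]; linarith
      · have h3 : (2 : ℝ) * U ^ 4 ≤ U ^ 5 := by
          calc (2 : ℝ) * U ^ 4 ≤ U * U ^ 4 := by gcongr
            _ = U ^ 5 := by ring
        linarith
    · positivity
    · positivity
  · rcases hlam with rfl | rfl
    · left; simp
    · right; rfl
  · exact Nat.Coprime.cast hlamb
  · rw [hκ]; ring
  · -- s log c
    have h1 : (s : ℝ) * Real.log c ≤ u * U + U := by
      calc (s : ℝ) * Real.log c ≤ (u * k / n + δ) * Real.log c := by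
            apply mul_le_mul_of_nonneg_right _ hlogc0
            linarith
        _ = u / n * (k * Real.log c) + δ * Real.log c := by ring
        _ ≤ u * U + 1 * U := add_le_add hklogn (mul_le_mul hδ1 hcU hlogc0 (by norm_num))
        _ = u * U + U := by ring
    have h2 : U ≤ u * U := le_mul_of_one_le_left hU0.le hur1
    have h3 : u * (2 * U) ≤ u * U ^ (C₁ + 24) := by
      apply mul_le_mul_of_nonneg_left _ (by positivity)
      nlinarith
    linarith
  · apply hb_of_log K _ (pow_ne_zero _ hη0)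
    intro v
    rw [logv_pow]
    have h1 := (abs_le.1 (hηv v)).2
    have h2 : Real.log (v (η : K)) ≤ u / n * Y + 1 := by
      have h3 : (u : ℝ) / n * y v ≤ u / n * Y := mul_le_mul_of_nonneg_left (hYv v) hun0
      linarith
    have h4 : (l : ℝ) * Real.log (v (η : K)) ≤ l * (u / n * Y) + l := by
      have := mul_le_mul_of_nonneg_left h2 hl0.le
      linarith
    have h5 : (u : ℝ) * (8 * U ^ 2) ≤ u * U ^ (C₁ + 24) :=
      mul_le_mul_of_nonneg_left hU2C (by positivity)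
    linarith
  · apply hb_of_log K _ (pow_ne_zero _ hκ0)
    intro v
    rw [logv_pow]
    have h1 := (abs_le.1 (hηv v)).1
    have h2 := congrArg (fun x : 𝓞 K => Real.log (v (x : K))) hκ
    beta_reduce at h2
    rw [logv_mul K v _ _ hla0 (pow_ne_zero _ hc0), logv_mul K v _ _ (pow_ne_zero _ hη0) hκ0,
      logv_pow, logv_pow, place_natCast] at h2
    have h3 : y v = Real.log (v (((lam0 : 𝓞 K) * α : 𝓞 K) : K)) - Lf / D := rfl
    have h4 : t * y v - r * δ ≤ r * Real.log (v (η : K)) := by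
      have h5 : (u : ℝ) / n * y v - δ ≤ Real.log (v (η : K)) := by linarith
      have h6 := mul_le_mul_of_nonneg_left h5 hr0
      have h7 : (r : ℝ) * (u / n * y v - δ) = t * y v - r * δ := by rw [ht]; ring
      linarith
    have h8 : (1 - t) * y v ≤ u / n * Y := by
      calc (1 - t) * y v ≤ (1 - t) * Y := mul_le_mul_of_nonneg_left (hYv v) (by linarith)
        _ ≤ u / n * Y := mul_le_mul_of_nonneg_right ht2 hY0
    have h9 : Real.log (v (κ : K)) ≤ u / n * Y + 2 * Real.log l + E * Real.log c + r * δ := by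
      linarith
    have h10 : (l : ℝ) * Real.log (v (κ : K)) ≤ l * (u / n * Y) + 2 * (l * Real.log l) +
        l * (E * Real.log c) + l * (r * δ) := by
      have := mul_le_mul_of_nonneg_left h9 hl0.le
      linarith
    have h11 : (l : ℝ) * (r * δ) ≤ (r * δ) * U ^ 2 := by
      calc (l : ℝ) * (r * δ) ≤ U * (r * δ) := by gcongr
        _ ≤ U ^ 2 * (r * δ) := by gcongr
        _ = (r * δ) * U ^ 2 := by ring
    have h12 : 0 ≤ (r * δ) * U ^ 2 := by positivity
    linarith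
  · apply hb_of_log K _ (mul_ne_zero (pow_ne_zero _ hlam0) (pow_ne_zero _ hc0))
    intro v
    rw [logv_mul K v _ _ (pow_ne_zero _ hlam0) (pow_ne_zero _ hc0), logv_pow, logv_pow,
      place_natCast, place_natCast]
    have h1 : ((k + E * l - s * r : ℕ) : ℝ) = k + E * l - s * r := by
      rw [Nat.cast_sub (by omega)]; push_cast; ring
    rw [h1]
    have h2 : (k : ℝ) * t - r * δ ≤ s * r := by
      have h3 : (u * k / n - δ) * (r : ℝ) ≤ s * r := by gcongr; linarith
      have h4 : (u * k / n - δ) * (r : ℝ) = k * t - r * δ := by rw [ht]; ring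
      linarith
    have h5 : ((k : ℝ) + E * l - s * r) * Real.log c ≤
        (1 - t) * (k * Real.log c) + (r * δ) * Real.log c + l * (E * Real.log c) := by
      have h6 : (k : ℝ) + E * l - s * r ≤ (1 - t) * k + r * δ + E * l := by linarith
      have h7 := mul_le_mul_of_nonneg_right h6 hlogc0
      have h8 : ((1 - t) * k + r * δ + E * l) * Real.log c =
        (1 - t) * (k * Real.log c) + (r * δ) * Real.log c + l * (E * Real.log c) := by ring
      linarith
    have h9 : (1 - t) * (k * Real.log c) ≤ u * U :=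
      (mul_le_mul_of_nonneg_right ht2 (by positivity)).trans hklogn
    have h10 : (r * δ) * Real.log c ≤ (r * δ) * U ^ 2 :=
      mul_le_mul_of_nonneg_left (by linarith) hrδ0
    have h11 : (l : ℝ) * Real.log lam0 ≤ U ^ 2 :=
      (mul_le_mul_of_nonneg_left hloglam hl0.le).trans hll
    have h12 : (u : ℝ) * U ≤ u * U ^ 2 := by gcongr
    have h13 : 0 ≤ (r * δ) * U ^ 2 := by positivity
    linarith

end Pool.Agent.Work.MP_2738db_nt_A.helper87
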