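import Pool.Agent.Work.MP_2738db_nt_A.Interface

set_option autoImplicit false

namespace Pool.Agent.Work.MP_2738db_nt_A.helper87

open Finset NumberField Pool.Agent.Work.MP_2738db_nt_A

theorem stmt_NRM : Stmt_Nrm := by
  intro K _ _ P V x h hP hP0 hx hxP hB
  have h1 : Ideal.absNorm (P ^ V) ∣ Ideal.absNorm (Ideal.span {x}) := by
    apply Ideal.absNorm_dvd_absNorm_of_le
    rw [Ideal.span_singleton_le_iff_mem]; exact hxP
  have hx0 : Ideal.absNorm (Ideal.span {x}) ≠ 0 := by
    rw [Ne, Ideal.absNorm_eq_zero_iff]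
    simpa using hx
  have hP1 : 0 < Ideal.absNorm P := by
    rw [Nat.pos_iff_ne_zero, Ne, Ideal.absNorm_eq_zero_iff]; exact hP0
  have h2 : Ideal.absNorm P ^ V ≤ Ideal.absNorm (Ideal.span {x}) := by
    rw [← map_pow]; exact Nat.le_of_dvd (Nat.pos_of_ne_zero hx0) h1
  have h3 : (Ideal.absNorm (Ideal.span {x}) : ℝ) = ∏ v : InfinitePlace K, v (x : K) ^ v.mult := by
    rw [InfinitePlace.prod_eq_abs_norm, Ideal.absNorm_span_singleton]
    have : (Algebra.norm ℚ (x : K)) = ((Algebra.norm ℤ x : ℤ) : ℚ) := by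
      exact (Algebra.coe_norm_int x).symm
    rw [this]
    rw [Nat.cast_natAbs]
    push_cast
    rfl
  have h4 : ∏ v : InfinitePlace K, v (x : K) ^ v.mult ≤
      ∏ v : InfinitePlace K, Real.exp h ^ v.mult := by
    apply Finset.prod_le_prod
    · intro v _; positivity
    · intro v _
      exact pow_le_pow_left₀ (by positivity) (hB v) _
  have h5 : ∏ v : InfinitePlace K, Real.exp h ^ v.mult = Real.exp (Module.finrank ℚ K * h) := by
    rw [Finset.prod_pow_eq_pow_sum, InfinitePlace.sum_mult_eq, ← Real.exp_nat_mul]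
  have h6 : (Ideal.absNorm P : ℝ) ^ V ≤ Real.exp (Module.finrank ℚ K * h) := by
    calc (Ideal.absNorm P : ℝ) ^ V ≤ (Ideal.absNorm (Ideal.span {x}) : ℝ) := by exact_mod_cast h2
      _ ≤ _ := by rw [h3, ← h5]; exact h4
  have h7 := Real.log_le_log (by positivity) h6
  rwa [Real.log_pow, Real.log_exp] at h7

end Pool.Agent.Work.MP_2738db_nt_A.helper87
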